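import Mathlib

set_option autoImplicit false

namespace Pool.Agent.Hst

open Set Topology Filter

def HasLog (F : Circle → ℂ) : Prop := ∃ L : Circle → ℂ, Continuous L ∧ ∀ z, Complex.exp (L z) = F z

theorem transfer (F G : Circle → ℂ) (hF : Continuous F) (hG : Continuous G) (hG0 : ∀ z, G z ≠ 0)
    (h : ∀ z, ‖F z - G z‖ < ‖G z‖) (hL : HasLog G) : HasLog F := by
  obtain ⟨L, hLc, hL⟩ := hL
  have hs : ∀ z, F z / G z ∈ Complex.slitPlane := by
    intro z
    have : F z / G z = 1 + (F z - G z) / G z := by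
      have := hG0 z
      field_simp
      ring
    rw [this]
    apply Complex.mem_slitPlane_of_norm_lt_one
    rw [norm_div, div_lt_one (norm_pos_iff.2 (hG0 z))]
    exact h z
  refine ⟨fun z => Complex.log (F z / G z) + L z, ?_, ?_⟩
  · exact ((hF.div hG hG0).clog hs).add hLc
  · intro z
    rw [Complex.exp_add, Complex.exp_log (Complex.slitPlane_ne_zero (hs z)), hL z, div_mul_cancel₀ _ (hG0 z)]

theorem const_log (c : ℂ) (hc : c ≠ 0) : HasLog (fun _ => c) :=
  ⟨fun _ => Complex.log c, continuous_const, fun _ => Complex.exp_log hc⟩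

theorem no_log (r : ℝ) (hr : 0 < r) : ¬ HasLog (fun z : Circle => (r : ℂ) * (z : ℂ)) := by
  rintro ⟨L, hLc, hL⟩
  have hpi : (0 : ℝ) < 2 * Real.pi := by positivity
  set w : ℝ → ℝ := fun θ => ((L (Circle.exp θ)).im - θ) / (2 * Real.pi) with hw
  have hwc : Continuous w := by
    apply Continuous.div_const
    apply Continuous.sub
    · exact Complex.continuous_im.comp (hLc.comp Circle.exp.continuous)
    · exact continuous_id
  have hint : ∀ θ, ∃ n : ℤ, w θ = n := by
    intro θ
    have h1 : Complex.exp (L (Circle.exp θ)) = (r : ℂ) * ((Circle.exp θ : Circle) : ℂ) := hL (Circle.exp θ)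
    have h2 : Complex.exp (L (Circle.exp θ) - ((Real.log r : ℂ) + θ * Complex.I)) = 1 := by
      rw [Complex.exp_sub, h1, Complex.exp_add, ← Complex.ofReal_exp, Real.exp_log hr, Circle.coe_exp]
      apply div_self
      apply mul_ne_zero
      · exact_mod_cast hr.ne'
      · exact Complex.exp_ne_zero _
    obtain ⟨n, hn⟩ := Complex.exp_eq_one_iff.1 h2
    refine ⟨n, ?_⟩
    have h3 := congrArg Complex.im hn
    simp at h3
    rw [hw]
    simp only
    rw [div_eq_iff hpi.ne']
    linarith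
  have hw0 : w 0 = w (2 * Real.pi) + 1 := by
    rw [hw]
    simp only [Circle.exp_zero, Circle.exp_two_pi]
    field_simp
    ring
  obtain ⟨n, hn⟩ := hint (2 * Real.pi)
  have hmem : (n : ℝ) + 1/2 ∈ Icc (w (2 * Real.pi)) (w 0) := by
    rw [hw0, hn]
    constructor <;> linarith
  obtain ⟨θ, _, hθ⟩ := intermediate_value_Icc' hpi.le hwc.continuousOn hmem
  obtain ⟨m, hm⟩ := hint θ
  rw [hm] at hθ
  have h5 : (2 * m : ℝ) = 2 * n + 1 := by linarith
  have h6 : (2 * m : ℤ) = 2 * n + 1 := by exact_mod_cast h5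
  omega

theorem stable (K : Circle × unitInterval → ℂ) (hK : Continuous K) (h0 : ∀ p, K p ≠ 0) (s t : unitInterval)
    (ht : HasLog (fun z => K (z, t))) : HasLog (fun z => K (z, s)) := by
  have hKs : ∀ s, Continuous (fun z : Circle => K (z, s)) := fun s => hK.comp (by fun_prop)
  have loc : ∀ s0 : unitInterval, ∀ᶠ s in 𝓝 s0, ∀ z ∈ (univ : Set Circle),
      ‖K (z, s) - K (z, s0)‖ < ‖K (z, s0)‖ ∧ ‖K (z, s) - K (z, s0)‖ < ‖K (z, s)‖ := by
    intro s0
    apply IsCompact.eventually_forall_of_forall_eventually isCompact_univ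
    intro z _
    have c1 : Continuous (fun p : unitInterval × Circle => ‖K (p.2, p.1) - K (p.2, s0)‖) := by
      apply Continuous.norm
      exact (hK.comp (by fun_prop)).sub (hK.comp (by fun_prop))
    have c2 : Continuous (fun p : unitInterval × Circle => ‖K (p.2, s0)‖) := (hK.comp (by fun_prop)).norm
    have c3 : Continuous (fun p : unitInterval × Circle => ‖K (p.2, p.1)‖) := (hK.comp (by fun_prop)).norm
    have e1 : ∀ᶠ p in 𝓝 (s0, z), ‖K (p.2, p.1) - K (p.2, s0)‖ < ‖K (p.2, s0)‖ := by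
      apply (isOpen_lt c1 c2).mem_nhds
      show ‖K (z, s0) - K (z, s0)‖ < ‖K (z, s0)‖
      rw [sub_self, norm_zero]
      exact norm_pos_iff.2 (h0 _)
    have e2 : ∀ᶠ p in 𝓝 (s0, z), ‖K (p.2, p.1) - K (p.2, s0)‖ < ‖K (p.2, p.1)‖ := by
      apply (isOpen_lt c1 c3).mem_nhds
      show ‖K (z, s0) - K (z, s0)‖ < ‖K (z, s0)‖
      rw [sub_self, norm_zero]
      exact norm_pos_iff.2 (h0 _)
    exact e1.and e2
  set T : Set unitInterval := {s | HasLog (fun z => K (z, s))} with hT
  have ho : IsOpen T := by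
    rw [isOpen_iff_mem_nhds]
    intro s0 hs0
    filter_upwards [loc s0] with s hs
    exact transfer _ _ (hKs s) (hKs s0) (fun z => h0 _) (fun z => (hs z trivial).1) hs0
  have hc : IsOpen Tᶜ := by
    rw [isOpen_iff_mem_nhds]
    intro s0 hs0
    filter_upwards [loc s0] with s hs hsT
    apply hs0
    exact transfer _ _ (hKs s0) (hKs s) (fun z => h0 _) (fun z => by rw [norm_sub_rev]; exact (hs z trivial).2) hsT
  have hcl : IsClopen T := ⟨isOpen_compl_iff.1 hc, ho⟩
  have := hcl.eq_univ ⟨t, ht⟩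
  have hs : s ∈ T := by rw [this]; trivial
  exact hs

theorem dir (D : Set ℂ) (hD : D.Countable) (x v : ℂ) (hx : x ∉ D) (ε : ℝ) (hε : 0 < ε) :
    ∃ v' : ℂ, ‖v' - v‖ < ε ∧ ∀ t : ℝ, x + t * v' ∉ D := by
  by_cases hv : v = 0
  · subst hv
    exact ⟨0, by simpa using hε, fun t => by simpa using hx⟩
  · have hbad : ((fun d : ℂ => ((d - x) / v).im / ((d - x) / v).re) '' D).Countable := hD.image _
    have hvp : 0 < ‖v‖ := norm_pos_iff.2 hv
    obtain ⟨s, hs1, hs2⟩ := (hbad.dense_compl ℝ).exists_between (div_pos hε hvp)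
    refine ⟨v * (1 + s * Complex.I), ?_, ?_⟩
    · have : v * (1 + s * Complex.I) - v = v * (s * Complex.I) := by ring
      rw [this, norm_mul, norm_mul, Complex.norm_I, mul_one, Complex.norm_real, Real.norm_eq_abs, abs_of_pos hs2.1]
      rw [mul_comm]
      exact (lt_div_iff₀ hvp).1 hs2.2
    · intro t ht
      have htne : t ≠ 0 := by
        rintro rfl
        apply hx
        simpa using ht
      apply hs1
      refine ⟨_, ht, ?_⟩
      have : (x + t * (v * (1 + s * Complex.I)) - x) / v = t * (1 + s * Complex.I) := by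
        field_simp
        ring
      simp only [this]
      simp
      field_simp

theorem idstable (D : Set ℂ) (hD : D.Countable) (hd : Dense D)
    (h : {z : ℂ // z ∉ D} × unitInterval → {z : ℂ // z ∉ D}) (hh : Continuous h)
    (h0 : ∀ x, h (x, (0 : unitInterval)) = x) (a : {z : ℂ // z ∉ D}) (t : unitInterval) : h (a, t) = a := by
  by_contra hne
  set b := h (a, t) with hb
  have hρ : 0 < dist (b : ℂ) (a : ℂ) := dist_pos.2 (fun he => hne (Subtype.ext he))
  set ρ := dist (b : ℂ) (a : ℂ) with hρd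
  have hk : Continuous (fun x : {z : ℂ // z ∉ D} => ((h (x, t)) : ℂ)) :=
    continuous_subtype_val.comp (hh.comp (by fun_prop))
  obtain ⟨δ0, hδ0, hδ⟩ := Metric.continuous_iff.1 hk a (ρ/4) (by positivity)
  set δ := min δ0 (ρ/4) with hδd
  have hδp : 0 < δ := lt_min hδ0 (by positivity)
  obtain ⟨p, hpD, hpa⟩ := hd.exists_dist_lt (a : ℂ) (show 0 < δ/2 by positivity)
  have hbad : ((fun d : ℂ => ‖d - p‖) '' D).Countable := hD.image _
  obtain ⟨r, hr1, hr2⟩ := (hbad.dense_compl ℝ).exists_between (show 0 < δ/2 by positivity)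
  have hmem : ∀ z : Circle, p + r * (z : ℂ) ∉ D := by
    intro z hz
    apply hr1
    refine ⟨_, hz, ?_⟩
    have := Circle.norm_coe z
    simp only [add_sub_cancel_left, norm_mul, Complex.norm_real, Real.norm_eq_abs, abs_of_pos hr2.1, this, mul_one]
  set cz : Circle → {z : ℂ // z ∉ D} := fun z => ⟨p + r * (z : ℂ), hmem z⟩ with hcz
  have hczc : Continuous cz := by
    apply Continuous.subtype_mk
    fun_prop
  set K : Circle × unitInterval → ℂ := fun q => (h (cz q.1, q.2) : ℂ) - p with hKd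
  have hK : Continuous K := by
    apply Continuous.sub _ continuous_const
    exact continuous_subtype_val.comp (hh.comp ((hczc.comp continuous_fst).prodMk continuous_snd))
  have hK0 : ∀ q, K q ≠ 0 := by
    intro q hq
    have h1 := (h (cz q.1, q.2)).2
    have h2 : (h (cz q.1, q.2) : ℂ) = p := sub_eq_zero.1 hq
    rw [h2] at h1
    exact h1 hpD
  have hlogt : HasLog (fun z => K (z, t)) := by
    have hbap : ((b : ℂ) - a) ≠ 0 := sub_ne_zero.2 (fun he => hne (Subtype.ext he))
    refine transfer _ (fun _ => (b : ℂ) - a) (hK.comp (by fun_prop)) continuous_const (fun _ => hbap) ?_ (const_log _ hbap)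
    intro z
    have h1 : dist (cz z) a < δ0 := by
      show dist (p + r * (z : ℂ)) (a : ℂ) < δ0
      calc dist (p + r * (z : ℂ)) (a : ℂ) ≤ dist (p + r * (z : ℂ)) p + dist p (a : ℂ) := dist_triangle _ _ _
        _ < δ/2 + δ/2 := by
          apply add_lt_add
          · have := Circle.norm_coe z
            rw [dist_eq_norm]
            simp only [add_sub_cancel_left, norm_mul, Complex.norm_real, Real.norm_eq_abs, abs_of_pos hr2.1, this, mul_one]
            exact hr2.2
          · rw [dist_comm]; exact hpa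
        _ ≤ δ0 := by rw [add_halves]; exact min_le_left _ _
    have h2 := hδ (cz z) h1
    rw [dist_eq_norm] at h2
    have h3 : ‖(a : ℂ) - p‖ < δ/2 := by rw [← dist_eq_norm]; exact hpa
    have h4 : δ ≤ ρ/4 := min_le_right _ _
    have h5 : ρ = ‖(b : ℂ) - a‖ := by rw [hρd, dist_eq_norm]
    show ‖(h (cz z, t) : ℂ) - p - ((b : ℂ) - a)‖ < ‖(b : ℂ) - a‖
    have h6 : (h (cz z, t) : ℂ) - p - ((b : ℂ) - a) = ((h (cz z, t) : ℂ) - b) + ((a : ℂ) - p) := by ring
    rw [h6, ← h5]
    calc ‖((h (cz z, t) : ℂ) - b) + ((a : ℂ) - p)‖ ≤ ‖(h (cz z, t) : ℂ) - b‖ + ‖(a : ℂ) - p‖ := norm_add_le _ _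
      _ < ρ := by linarith
  have := stable K hK hK0 0 t hlogt
  have h7 : (fun z : Circle => K (z, 0)) = fun z : Circle => (r : ℂ) * (z : ℂ) := by
    funext z
    show (h (cz z, 0) : ℂ) - p = (r : ℂ) * (z : ℂ)
    rw [h0]
    simp [hcz]
  rw [h7] at this
  exact no_log r hr2.1 this

theorem main :
    ∃ (X : Type) (_ : MetricSpace X),
      (∀ h : X × unitInterval → X, Continuous h →
          (∀ x : X, h (x, (0 : unitInterval)) = x) →
          ∀ (a : X) (t : unitInterval), h (a, t) = a) ∧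
      ∃ (Z : Type) (_ : MetricSpace Z) (g : Z → X),
        Continuous g ∧ IsOpenMap g ∧ Function.Surjective g ∧
        ∃ (a : Z) (h : Z × unitInterval → X), Continuous h ∧
          (∀ z : Z, h (z, (0 : unitInterval)) = g z) ∧
          ∃ t : unitInterval, h (a, t) ≠ g a := by
  obtain ⟨D, hD, hd⟩ := TopologicalSpace.exists_countable_dense ℂ
  refine ⟨{z : ℂ // z ∉ D}, inferInstance, fun h hh h0 a t => idstable D hD hd h hh h0 a t,
    {q : ℂ × ℂ // ∀ t : ℝ, q.1 + t * q.2 ∉ D}, inferInstance, fun q => ⟨q.1.1, by simpa using q.2 0⟩, ?_, ?_, ?_, ?_⟩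
  · apply Continuous.subtype_mk
    exact continuous_fst.comp continuous_subtype_val
  · intro V hV
    rw [Metric.isOpen_iff]
    rintro _ ⟨z0, hz0, rfl⟩
    obtain ⟨ε, hε, hball⟩ := Metric.isOpen_iff.1 hV z0 hz0
    refine ⟨ε, hε, ?_⟩
    intro x hx
    obtain ⟨v', hv', hav⟩ := dir D hD x.1 z0.1.2 x.2 ε hε
    refine ⟨⟨(x.1, v'), hav⟩, hball ?_, rfl⟩
    rw [Metric.mem_ball, Subtype.dist_eq, Prod.dist_eq]
    apply max_lt
    · exact hx
    · rw [dist_eq_norm]; exact hv'
  · intro x
    exact ⟨⟨(x.1, 0), fun t => by simpa using x.2⟩, rfl⟩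
  · have hex : ∃ x : ℂ, x ∉ D := by
      by_contra hcon
      push Not at hcon
      have h1 : (univ : Set ℂ).Countable := hD.mono (fun x _ => hcon x)
      have := (hD.dense_compl ℝ)
      obtain ⟨y, hy⟩ := this.nonempty
      exact hy (hcon y)
    obtain ⟨x, hx⟩ := hex
    obtain ⟨v, hv, hav⟩ := dir D hD x 1 hx 1 one_pos
    refine ⟨⟨(x, v), hav⟩, fun p => ⟨p.1.1.1 + ((p.2 : ℝ) : ℂ) * p.1.1.2, p.1.2 _⟩, ?_, ?_, 1, ?_⟩
    · apply Continuous.subtype_mk
      fun_prop
    · intro z
      apply Subtype.ext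
      simp
    · intro he
      have h1 := congrArg Subtype.val he
      simp at h1
      rw [h1] at hv
      simp at hv

end Pool.Agent.Hst
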